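import Mathlib
import Pool.Agent.Helper88.PLap.Final

set_option autoImplicit false

namespace Pool.Agent.PLZ.Old.ExponentThreshold

/-- Let `n ≥ 3`, `p > 1`, `p ≠ 2`, `m ≥ 2` and `g = (p - 1) / (n - 1)`. If
`2 (m-1)^2 g^3 - 2 (m-1) (m-3) g^2 + (m-2) (m-3) (g-1) > 0`, there is no nonzero real homogeneous
polynomial of degree `m` in `n` variables solving the `p`-Laplace equation. The condition holds
for all `p ≥ n`, and for all `p` if `m` is `2` or `3`. -/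
theorem result (n : ℕ) (hn : 3 ≤ n) (p : ℝ) (hp1 : 1 < p) (hp2 : p ≠ 2) (m : ℕ) (hm : 2 ≤ m)
    (hg : 0 < 2 * ((m : ℝ) - 1) ^ 2 * ((p - 1) / ((n : ℝ) - 1)) ^ 3 -
      2 * ((m : ℝ) - 1) * ((m : ℝ) - 3) * ((p - 1) / ((n : ℝ) - 1)) ^ 2 +
      ((m : ℝ) - 2) * ((m : ℝ) - 3) * ((p - 1) / ((n : ℝ) - 1) - 1)) :
    ¬ ∃ u : MvPolynomial (Fin n) ℝ, u ≠ 0 ∧ u.IsHomogeneous m ∧
      ∀ x : Fin n → ℝ,
        (∑ i, (MvPolynomial.eval x (MvPolynomial.pderiv i u)) ^ 2) *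
            (∑ i, MvPolynomial.eval x (MvPolynomial.pderiv i (MvPolynomial.pderiv i u))) +
          (p - 2) * ∑ i, ∑ j,
            MvPolynomial.eval x (MvPolynomial.pderiv i u) *
              MvPolynomial.eval x (MvPolynomial.pderiv j u) *
              MvPolynomial.eval x (MvPolynomial.pderiv i (MvPolynomial.pderiv j u)) = 0 := by
  rintro ⟨u, hu0, hu, h⟩
  exact Pool.Agent.Helper88.PLap.threshold hn p hp1 hp2 m hm hg u hu0 hu h

end Pool.Agent.PLZ.Old.ExponentThreshold
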